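import Mathlib
import Pool.Agent.H25.Aron2

set_option autoImplicit false

namespace Pool.Agent.Results.MP_b69c94_gt.Square

open Set Pool.Agent.H25.Aron

/-- Every Tychonoff continuous image that condenses onto a second countable Tychonoff space has a
countable network. -/
def OmegaStable (X : Type) [TopologicalSpace X] : Prop :=
  ∀ (Y : Type) [TopologicalSpace Y] [T35Space Y] (f : X → Y), Continuous f →
    Function.Surjective f →
    (∃ (M : Type) (_ : TopologicalSpace M), T35Space M ∧ SecondCountableTopology M ∧
      ∃ g : Y → M, Continuous g ∧ Function.Bijective g) →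
    ∃ N : Set (Set Y), N.Countable ∧ ∀ U, IsOpen U → ∃ N' ⊆ N, U = ⋃₀ N'

/-- A Lindelöf ω-stable Tychonoff space whose square is not Lindelöf. -/
theorem result : ∃ (X : Type) (_ : TopologicalSpace X), T35Space X ∧ LindelofSpace X ∧
    OmegaStable X ∧ ¬ LindelofSpace (X × X) ∧ ¬ LindelofSpace (Fin 2 → X) := by
  refine ⟨X, inferInstance, t35, lind, ?_, not_lind, fun h => not_lind
    (.of_continuous_surjective (Homeomorph.finTwoArrow (X := X)).continuous
      (Homeomorph.surjective _))⟩
  rintro Y _ _ f h1 h2 ⟨M, _, _, _, g, h3, h4⟩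
  let _ := TopologicalSpace.metrizableSpaceMetric M
  have h5 : (univ : Set Y).Countable := by
    refine countable_of_injective_of_countable_image h4.1.injOn
      ((simple (g ∘ f) (h3.comp h1)).mono ?_)
    rintro _ ⟨y, -, rfl⟩
    obtain ⟨x, rfl⟩ := h2 y
    exact ⟨x, rfl⟩
  refine ⟨singleton '' univ, h5.image _, fun U _ => ⟨singleton '' U, image_mono (subset_univ _), ?_⟩⟩
  rw [sUnion_image, biUnion_of_singleton]

end Pool.Agent.Results.MP_b69c94_gt.Square
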